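import Pool.Agent.Work.MP_91103f_lv.Interface

/-! DESC: descending paths. -/

namespace Pool.TriLev.helper54

open Pool.TriLev Pool.Agent.Work.MP_91103f_co

open Classical

lemma exists_parent {V : Type} {G : SimpleGraph V} (hG : G.Connected) (r x : V)
    (hx : G.dist r x ≠ 0) : ∃ p, Ch G r p x := by
  obtain ⟨w, hw⟩ := (hG r x).exists_walk_length_eq_dist
  have hr : w.reverse.length = G.dist r x := by rw [SimpleGraph.Walk.length_reverse, hw]
  cases hc : w.reverse with
  | nil =>
    exfalso
    apply hx
    exact SimpleGraph.dist_self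
  | cons h q =>
    rename_i p
    refine ⟨p, h.symm, ?_⟩
    rw [hc, SimpleGraph.Walk.length_cons] at hr
    have h1 : G.dist p r ≤ q.length := SimpleGraph.dist_le q
    have h2 : G.dist r x ≤ G.dist r p + G.dist p x := hG.dist_triangle
    have h3 : G.dist p x = 1 := SimpleGraph.dist_eq_one_iff_adj.2 h.symm
    rw [SimpleGraph.dist_comm] at h1
    omega

lemma stmt_DESC_aux {V : Type} {G : SimpleGraph V} (hG : G.Connected) (r : V) :
    ∀ (d : ℕ) (a b : V), G.dist r a = d → G.dist r b = d →
    ∃ (s : ℕ) (A B : ℕ → V), A 0 = a ∧ B 0 = b ∧ A s = B s ∧ (∀ t < s, A t ≠ B t) ∧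
      (∀ t < s, Ch G r (A (t + 1)) (A t)) ∧ (∀ t < s, Ch G r (B (t + 1)) (B t)) := by
  intro d
  induction d with
  | zero =>
    intro a b ha hb
    have h1 : r = a := (hG.dist_eq_zero_iff).1 ha
    have h2 : r = b := (hG.dist_eq_zero_iff).1 hb
    subst h1
    subst h2
    exact ⟨0, fun _ => r, fun _ => r, rfl, rfl, rfl, by simp, by simp, by simp⟩
  | succ d ih =>
    intro a b ha hb
    by_cases hab : a = b
    · subst hab
      exact ⟨0, fun _ => a, fun _ => a, rfl, rfl, rfl, by simp, by simp, by simp⟩
    obtain ⟨a', ha'⟩ := exists_parent hG r a (by omega)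
    obtain ⟨b', hb'⟩ := exists_parent hG r b (by omega)
    obtain ⟨s, A, B, h0, h0', hs, hne, hA, hB⟩ := ih a' b' (by have := ha'.2; omega)
      (by have := hb'.2; omega)
    refine ⟨s + 1, fun t => Nat.casesOn t a A, fun t => Nat.casesOn t b B, rfl, rfl, hs,
      ?_, ?_, ?_⟩
    · intro t ht
      cases t with
      | zero => exact hab
      | succ t => exact hne t (by omega)
    · intro t ht
      cases t with
      | zero => show Ch G r (A 0) a; rw [h0]; exact ha'
      | succ t => exact hA t (by omega)
    · intro t ht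
      cases t with
      | zero => show Ch G r (B 0) b; rw [h0']; exact hb'
      | succ t => exact hB t (by omega)

/-- DESC -/
theorem stmt_DESC : Stmt_DESC := by
  intro V G hG r a b hab
  exact stmt_DESC_aux hG r (G.dist r a) a b rfl hab.symm

end Pool.TriLev.helper54
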